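import Pool.Agent.Helper69_SER.Stmts

/-! Module CONV: the frozen statement from MainStmt. -/

set_option autoImplicit false

namespace SER.H21

open SER

theorem chain_of {R : Type} [Ring R] {M : Type} [AddCommGroup M] [Module R M]
    (U : Submodule R M) (h : ∀ A B : Submodule R M, A ≤ U → B ≤ U → A ≤ B ∨ B ≤ A) :
    Chain R U := by
  intro A B
  have hi : Function.Injective U.subtype := U.injective_subtype
  rcases h (A.map U.subtype) (B.map U.subtype) (Submodule.map_subtype_le U A)
    (Submodule.map_subtype_le U B) with h | h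
  · exact Or.inl ((Submodule.map_le_map_iff_of_injective hi A B).1 h)
  · exact Or.inr ((Submodule.map_le_map_iff_of_injective hi B A).1 h)

theorem sd_of {R : Type} [Ring R] {M : Type} [AddCommGroup M] [Module R M]
    (N : Submodule R M)
    (hno : ¬ ∃ K L : Submodule R M, K ≠ ⊥ ∧ K ⊔ L = N ∧ K ⊓ L = ⊥ ∧
        ∀ A B : Submodule R M, A ⊔ B = K → A ⊓ B = ⊥ → A = ⊥ ∨ B = ⊥) :
    SD R N := by
  intro B _ _ hB s t hts
  have hts' : ∀ x, t (s x) = x := fun x => by
    have := LinearMap.congr_fun hts x
    simpa using this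
  have hs : Function.Injective s := fun x y hxy => by
    rw [← hts' x, ← hts' y, hxy]
  let f : B →ₗ[R] M := N.subtype ∘ₗ s
  have hf : Function.Injective f := N.injective_subtype.comp hs
  have hker : LinearMap.ker f = ⊥ := LinearMap.ker_eq_bot.2 hf
  -- the complement data
  have hK : LinearMap.range f ≠ ⊥ := by
    intro h
    obtain ⟨x, hx⟩ := exists_ne (0 : B)
    have : f x ∈ LinearMap.range f := ⟨x, rfl⟩
    rw [h, Submodule.mem_bot] at this
    exact hx (hf (by rw [this, map_zero]))
  have hsup : LinearMap.range f ⊔ (LinearMap.ker t).map N.subtype = N := by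
    apply le_antisymm
    · refine sup_le ?_ (Submodule.map_subtype_le _ _)
      rintro _ ⟨x, rfl⟩
      exact (s x).2
    · intro n hn
      have e : n = f (t ⟨n, hn⟩) + N.subtype (⟨n, hn⟩ - s (t ⟨n, hn⟩)) := by
        simp [f]
      rw [e]
      refine Submodule.add_mem_sup ⟨_, rfl⟩ ⟨_, ?_, rfl⟩
      show (⟨n, hn⟩ - s (t ⟨n, hn⟩) : N) ∈ LinearMap.ker t
      rw [LinearMap.mem_ker, map_sub, hts', sub_self]
  have hinf : LinearMap.range f ⊓ (LinearMap.ker t).map N.subtype = ⊥ := by
    rw [eq_bot_iff]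
    rintro _ ⟨⟨x, rfl⟩, ⟨y, hy, hyx⟩⟩
    have h1 : y = s x := N.injective_subtype hyx
    have h2 : t y = 0 := LinearMap.mem_ker.1 hy
    rw [h1, hts'] at h2
    rw [h2, map_zero]
    exact Submodule.zero_mem _
  by_contra hcon
  apply hno
  refine ⟨LinearMap.range f, (LinearMap.ker t).map N.subtype, hK, hsup, hinf, ?_⟩
  intro A A' hAA hAA'
  by_contra hne
  push Not at hne
  apply hcon
  have hA : A ≤ LinearMap.range f := hAA ▸ le_sup_left
  have hA' : A' ≤ LinearMap.range f := hAA ▸ le_sup_right
  have m1 : (A.comap f).map f = A := by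
    rw [Submodule.map_comap_eq, inf_eq_right.2 hA]
  have m2 : (A'.comap f).map f = A' := by
    rw [Submodule.map_comap_eq, inf_eq_right.2 hA']
  refine ⟨A.comap f, A'.comap f, ⟨?_, ?_⟩, ?_, ?_⟩
  · rw [disjoint_iff, ← Submodule.comap_inf, hAA', Submodule.comap_bot, hker]
  · rw [codisjoint_iff]
    apply Submodule.map_injective_of_injective hf
    rw [Submodule.map_sup, m1, m2, hAA, Submodule.map_top]
  · intro h
    rw [h, Submodule.map_bot] at m1
    exact hne.1 m1.symm
  · intro h
    rw [h, Submodule.map_bot] at m2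
    exact hne.2 m2.symm

theorem loc_of {R : Type} [Ring R] {M : Type} [AddCommGroup M] [Module R M]
    (ι : Type) (U : ι → Submodule R M) (hind : iSupIndep U) (htop : iSup U = ⊤)
    (N P : Submodule R M) (hNP : IsCompl N P) :
    Nonempty (Loc R N {i // U i ≠ ⊥} (fun i => ModuleCat.of R (U i.1))) := by
  classical
  have hint : DirectSum.IsInternal U :=
    DirectSum.isInternal_submodule_of_iSupIndep_of_iSup_eq_top hind htop
  let e : (DirectSum ι fun i => U i) ≃ₗ[R] M :=
    LinearEquiv.ofBijective (DirectSum.coeLinearMap U) hint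
  let π : M →ₗ[R] N := Submodule.projectionOnto N P hNP
  have hπ : ∀ n : N, π (n : M) = n := fun n => Submodule.projectionOnto_apply_left hNP n
  have hsum : ∀ n : N, ∑ i ∈ (e.symm (n : M)).support, π ((e.symm (n : M) i : M)) = n := by
    intro n
    have h1 : e (e.symm (n : M)) = n := e.apply_symm_apply _
    have h2 : e (e.symm (n : M)) = ∑ i ∈ (e.symm (n : M)).support, ((e.symm (n : M) i : M)) := by
      show DirectSum.coeLinearMap U (e.symm (n : M)) = _
      rw [DirectSum.coeLinearMap_eq_dfinsuppSum]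
      rfl
    rw [← map_sum, ← h2, h1, hπ]
  refine ⟨⟨fun i => π ∘ₗ (U i.1).subtype,
    fun i => (DirectSum.component R ι (fun i => U i) i.1) ∘ₗ e.symm.toLinearMap ∘ₗ N.subtype,
    fun n => ?_, fun n F hF => ?_⟩⟩
  · have hfin : {i : {i // U i ≠ ⊥} | i.1 ∈ (e.symm (n : M)).support}.Finite :=
      Set.Finite.preimage Subtype.val_injective.injOn (Finset.finite_toSet _)
    refine hfin.subset fun i hi => ?_
    rw [Set.mem_ofPred_eq, DFinsupp.mem_support_iff]
    exact hi
  · have hF' : (e.symm (n : M)).support ⊆ F.map (Function.Embedding.subtype _) := by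
      intro i hi
      have hne : e.symm (n : M) i ≠ 0 := DFinsupp.mem_support_iff.1 hi
      have hU : U i ≠ ⊥ := by
        intro hbot
        apply hne
        have hmem : ((e.symm (n : M) i : U i) : M) ∈ U i := (e.symm (n : M) i).2
        exact Subtype.ext ((Submodule.mem_bot R).1 (hbot.le hmem))
      rw [Finset.mem_map]
      exact ⟨⟨i, hU⟩, hF ⟨i, hU⟩ hne, rfl⟩
    have h3 : ∑ i ∈ F.map (Function.Embedding.subtype _), π ((e.symm (n : M) i : M)) = n := by
      rw [← Finset.sum_subset hF', hsum]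
      intro i _ hi
      have h0 : e.symm (n : M) i = 0 := by
        by_contra h
        exact hi (DFinsupp.mem_support_iff.2 h)
      rw [h0]
      simp
    rw [Finset.sum_map] at h3
    exact h3

theorem conv : ConvStmt := by
  intro hmain R _ M _ _ hU N hN hP
  by_contra hno
  obtain ⟨ι, U, hind, htop, hch⟩ := hU
  obtain ⟨P, hNP⟩ := hP
  obtain ⟨L⟩ := loc_of ι U hind htop N P hNP
  have hnt : Nontrivial N := Submodule.nontrivial_iff_ne_bot.2 hN
  refine hmain R N (sd_of N hno) hnt {i // U i ≠ ⊥} (fun i => ModuleCat.of R (U i.1)) ?_ L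
  intro i
  exact ⟨Submodule.nontrivial_iff_ne_bot.2 i.2, chain_of (U i.1) (hch i.1)⟩

end SER.H21
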